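import Pool.Agent.T9h20.TA.Spec

/-!
# (C) Integrating out one coefficient
-/

set_option autoImplicit false

open MeasureTheory Set Pool.Agent.T9h20.TA
open scoped ENNReal NNReal

namespace Pool.Agent.T9h80.TA

/-- Integrating out one coordinate of a product of probability measures. -/
theorem one_coord {ι : Type} [Fintype ι] [DecidableEq ι] {X : ι → Type}
    [∀ i, MeasurableSpace (X i)] (ν : ∀ i, Measure (X i)) [∀ i, IsProbabilityMeasure (ν i)]
    (f : (∀ i, X i) → ℝ≥0∞) (hf : Measurable f) (i : ι) :
    ∫⁻ x, f x ∂(Measure.pi ν) = ∫⁻ x, ∫⁻ y, f (Function.update x i y) ∂(ν i) ∂(Measure.pi ν) := by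
  have hm : Measurable (∫⋯∫⁻_{i}, f ∂ν) := hf.lmarginal ν
  have h1 : (∫⋯∫⁻_{i}, f ∂ν) = ∫⋯∫⁻_{i}, (∫⋯∫⁻_{i}, f ∂ν) ∂ν := by
    funext x
    conv_rhs => rw [lmarginal_singleton]
    simp only [lmarginal_update_of_mem ν (Finset.mem_singleton_self i)]
    rw [lintegral_const, measure_univ, mul_one]
  have h2 := lmarginal_eq_of_subset (μ := ν) (Finset.subset_univ {i}) hf hm h1
  rw [lmarginal_univ, lmarginal_univ] at h2
  rw [lmarginal_singleton] at h2
  by_cases hne : Nonempty (∀ i, X i)
  · exact congrFun h2 hne.some
  · rw [not_nonempty_iff] at hne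
    simp [lintegral_of_isEmpty]

theorem sCoord : SCoord := by
  intro β _ _ t μ _ Φ hΦ b s
  have hupd : Measurable (fun p : (β → Fin t → ℝ) × ℝ => upd p.1 b s p.2) := by
    unfold upd
    rw [measurable_pi_iff]
    intro b'
    rw [measurable_pi_iff]
    intro s'
    by_cases hb : b' = b
    · subst hb
      simp only [Function.update_self]
      by_cases hs : s' = s
      · subst hs
        simp only [Function.update_self]
        exact measurable_snd
      · simp only [Function.update_of_ne hs]
        exact (measurable_pi_apply s').comp ((measurable_pi_apply b').comp measurable_fst)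
    · simp only [Function.update_of_ne hb]
      exact (measurable_pi_apply s').comp ((measurable_pi_apply b').comp measurable_fst)
  have hΨ : Measurable (fun v : β → Fin t → ℝ => ∫⁻ x, Φ (upd v b s x) ∂(μ b s)) :=
    (hΦ.comp hupd).lintegral_prod_right'
  unfold PP
  rw [one_coord (fun b => Measure.pi (μ b)) Φ hΦ b,
    one_coord (fun b => Measure.pi (μ b)) _ hΨ b]
  refine lintegral_congr fun v => ?_
  have hg : Measurable (fun w : Fin t → ℝ => Φ (Function.update v b w)) :=
    hΦ.comp (measurable_update v)
  rw [one_coord (μ b) _ hg s]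
  refine lintegral_congr fun w => lintegral_congr fun x => ?_
  unfold upd
  rw [Function.update_self, Function.update_idem]

end Pool.Agent.T9h80.TA
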